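import Pool.Agent.X258.PRB.Main

/-!
# MP_e8bb91_co: the graph `G^{1/(μ(G)+1)}` need not be cop-winnable

The example has `780` stations (the 2-subsets of a 40-set), which form a complete graph, and `40`
anchors; the anchor `i` is adjacent to the stations that do not contain `i`. The anchors resolve
the graph, so its metric dimension is at most `40`; but on `G^{1/m}` the robber evades the cop for
every `1 ≤ m ≤ 41` by running from station to station. Indeed, when the cop probes `p` while the
robber is on his way from the station `u` to the station `x`, the answer depends on `x` only if
`x` is one of at most two stations near `p`, or if `x` contains the anchor near `p` and the robber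
has already passed the middle of the edge (or `u` and `x` meet). So the `m` probes made during one
passage cannot single out `x`.
-/

namespace Pool.Agent.Results.MP_e8bb91_co.RobberEvades

open Pool.Agent.X258.PRB

/-- **Q1 is false**: there is a finite connected graph `G` such that the robber evades the cop in
the probe game on `G^{1/(μ(G)+1)}`. -/
theorem result : ¬ ∀ (V : Type) [Fintype V] (G : SimpleGraph V), G.Connected →
    CopWinnable (subdivision G (metricDim G + 1)) := by
  intro h
  have h1 := h W Ex connected_Ex
  have h2 := metricDim_le
  exact not_copWinnable (by omega) (by omega) h1

end Pool.Agent.Results.MP_e8bb91_co.RobberEvades
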